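import Pool.Agent.V11198.SixteenS
import Pool.Agent.Results.MP_0c3aa4_co.ThroughDominating

/-!
# MP_0c3aa4_co: 2-regular subgraphs `S` for which `G / S` has a nowhere-zero 4-flow

Let `G` be a bridgeless cubic graph and `S` a 2-regular subgraph such that `G - E(S)` is connected.
If the graph `G / S`, in which every cycle of `S` is contracted to a vertex, has a nowhere-zero
4-flow, then `G` has a cycle double cover which contains `S`; one may even take five even subgraphs
one of which is `S` (theorem `four_of_flows` of the starting library, for the single bridge of `S`).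
The graph `G / S` has a nowhere-zero 4-flow

* if it has two edge-disjoint spanning trees (Jaeger), for instance if it is 4-edge-connected;
* if it has at most nine vertices;
* if it has at most sixteen vertices of odd degree and `G` has no nontrivial edge cut with three
  edges (theorem `main16` of the starting library).
-/

set_option autoImplicit false

open Finset

namespace Pool.Agent.Results.MP_0c3aa4_co.FewOddParts

open Pool.Agent.Helper347.Sab
open Pool.Agent.Results.MP_0c3aa4_co.ThroughDominating (TwoRegular IsCycleDoubleCover)

variable {V E : Type} [Fintype V] [DecidableEq V] [Fintype E] [DecidableEq E]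

/-- There is a path from `a` to `b` all of whose edges are in `F`. -/
def Linked (G : MGraph V E) (F : Finset E) (a b : V) : Prop :=
  Relation.ReflTransGen (fun x y => ∃ e ∈ F, G.ends e = s(x, y)) a b

/-- The vertex sets of the components of the graph `(V, S)`: the vertex sets of the cycles of `S`
and the single vertices off `S`. They are the vertices of `G / S`. -/
def parts (G : MGraph V E) (S : Finset E) : Set (Set V) := {X | ∃ v, X = {w | Linked G S v w}}

/-- No edge cut with three edges has at least two vertices on both sides. -/
def NoThreeCut (G : MGraph V E) : Prop :=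
  ∀ X : Finset V, 2 ≤ X.card → 2 ≤ Xᶜ.card →
    ({e | ∃ a ∈ X, ∃ b ∉ X, G.ends e = s(a, b)} : Set E).ncard ≠ 3

/-- `G` has a cycle double cover that contains every cycle of `S`, and `G` has five even subgraphs
`D 0 = S`, `D 1, ..., D 4` such that every edge lies in exactly two of them. -/
def Covered (G : MGraph V E) (S : Finset E) : Prop :=
  (∃ F : Finset (Finset E), IsCycleDoubleCover G F ∧ ∀ C, IsCircuit G C → C ⊆ S → C ∈ F) ∧
  ∃ D : Fin 5 → Finset E, (∀ i v, Even (dg G (D i) v)) ∧ D 0 = S ∧
    ∀ e, (univ.filter fun i => e ∈ D i).card = 2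

theorem covered_of_four (G : MGraph V E) (hG : IsCubic G) (S : Finset E) (hS : TwoRegular G S)
    (h : ∃ X : Fin 4 → Finset E, (∀ i, Ev G (X i)) ∧
      (∀ e ∈ S, (univ.filter fun i => e ∈ X i).card = 1) ∧
      (∀ e, e ∉ S → (univ.filter fun i => e ∈ X i).card = 2)) : Covered G S := by
  constructor
  · obtain ⟨F, h1, h2, h3⟩ := Pool.Agent.V11198.Six.cdc_of_four G S hS h
    have hnd := ThroughDominating.nodup_cover G hG F h1 h2
    refine ⟨⟨F, hnd⟩, ⟨fun X hX => h1 X hX, fun e => ?_⟩, fun C hC hCS => h3 C hC hCS⟩
    rw [← h2 e, Multiset.countP_eq_card_filter]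
    rfl
  · exact Pool.Agent.V11198.Six.five_of_four G S (fun v => by
      rcases hS v with h | h <;> rw [h] <;> decide) h

/-- an even set containing all edges outside a connected set -/
theorem even_of_connected (G : MGraph V E) (T : Finset E) (hT : ∀ a b, Linked G T a b) :
    ∃ A : Finset E, Ev G A ∧ ∀ e, e ∉ T → e ∈ A := by
  classical
  by_cases hV : Nonempty V
  · obtain ⟨p0⟩ := hV
    obtain ⟨J, hJT, hJ⟩ := Pool.Agent.Helper998.Near.join G T
      (fun v => ((dg G (univ \ T) v : ℕ) : ZMod 2)) (fun _ => p0) (fun v _ => hT v p0)
    have hJ' : ∀ x, ((dg G J x : ℕ) : ZMod 2) = ((dg G (univ \ T) x : ℕ) : ZMod 2) := by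
      intro x
      rw [hJ x]
      have h1 : ∑ v, ((dg G (univ \ T) v : ℕ) : ZMod 2) = 0 := by
        rw [← Nat.cast_sum]
        exact (Pool.Agent.Helper998.Near.even_iff_cast _).1 (handshake G (univ \ T))
      by_cases hx : x = p0
      · simp [hx, h1]
      · simp [hx]
    refine ⟨(univ \ T) ∪ J, fun v => ?_, fun e he =>
      mem_union_left _ (mem_sdiff.2 ⟨mem_univ _, he⟩)⟩
    have h1 := dg_sdiff (G := G) (X := (univ \ T) ∪ J) (Y := univ \ T) subset_union_left v
    have h3 : ((univ \ T) ∪ J) \ (univ \ T) = J := by
      rw [union_sdiff_left]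
      exact sdiff_eq_self_of_disjoint (disjoint_of_subset_left hJT (disjoint_sdiff))
    rw [h3] at h1
    rw [Pool.Agent.Helper998.Near.even_iff_cast, ← h1, Nat.cast_add, hJ' v]
    exact CharTwo.add_self_eq_zero _
  · refine ⟨univ, fun v => absurd ⟨v⟩ hV, fun e _ => mem_univ _⟩

/-- Let `G` be a cubic graph every edge of which lies in a circuit and let `S` be a 2-regular
subgraph such that `G - E(S)` is connected. Each of the following conditions implies that `G` has a
cycle double cover which contains `S`, and five even subgraphs, one of them `S`, that cover every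
edge exactly twice.

(1) Every edge outside `S` lies in one of two even subgraphs `A`, `B` of `G` (`G / S` has a
nowhere-zero 4-flow).

(2) There are two disjoint sets `T`, `U` of edges outside `S` such that `S ∪ T` and `S ∪ U` are
connected and spanning (`G / S` has two edge-disjoint spanning trees).

(3) `G / S` has at most nine vertices: the number of the vertices off `S` plus the number of the
cycles of `S` is at most nine.

(4) `S` is not empty, no edge cut of `G` with three edges has at least two vertices on both sides,
and `G / S` has at most sixteen vertices of odd degree: the number of the vertices off `S` plus the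
number of the odd cycles of `S` is at most sixteen. -/
theorem result {V E : Type} [Fintype V] [DecidableEq V] [Fintype E] [DecidableEq E]
    (G : MGraph V E) (hG : IsCubic G) (hb : ∀ e, ∃ D, IsCircuit G D ∧ e ∈ D) (S : Finset E)
    (hS : TwoRegular G S) (hconn : ∀ a b, Linked G (univ \ S) a b) :
    ((∃ A B : Finset E, (∀ v, Even (dg G A v)) ∧ (∀ v, Even (dg G B v)) ∧
        ∀ e, e ∉ S → e ∈ A ∨ e ∈ B) → Covered G S) ∧
    ((∃ T U : Finset E, Disjoint T U ∧ (∀ a b, Linked G (S ∪ T) a b) ∧
        ∀ a b, Linked G (S ∪ U) a b) → Covered G S) ∧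
    ((parts G S).ncard ≤ 9 → Covered G S) ∧
    (S.Nonempty → NoThreeCut G → {X | X ∈ parts G S ∧ Odd X.ncard}.ncard ≤ 16 →
      Covered G S) := by
  classical
  have hone : (∃ A B : Finset E, (∀ v, Even (dg G A v)) ∧ (∀ v, Even (dg G B v)) ∧
        ∀ e, e ∉ S → e ∈ A ∨ e ∈ B) → Covered G S := by
    rintro ⟨A, B, hA, hB, hcov⟩
    apply covered_of_four G hG S hS
    obtain ⟨X, h1, h2, h3, _⟩ := Pool.Agent.W614.SC.four_of_flows G S ∅ hS
      (fun v => ⟨A, B, hA, hB, fun f _ _ u _ => hconn v u, fun f hf _ _ => hcov f hf⟩)
    exact ⟨X, h1, h2, fun e he => h3 e he (notMem_empty e)⟩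
  obtain ⟨κ, hκr, hκ⟩ := Pool.Agent.V11198.Six.exists_rep G S
  have hends' : ∀ e, ∃ u v, u ≠ v ∧ G.ends e = s(u, v) := fun e => exists_ends G e
  choose al be hab hends using hends'
  have hev : ∀ e, ∃ D, Ev G D ∧ e ∈ D := by
    intro e
    obtain ⟨D, hD, he⟩ := hb e
    exact ⟨D, Pool.Agent.V11198.Six.ev_of_circuit G D hD, he⟩
  have hfix : ∀ v, κ (κ v) = κ v := fun v => ((hκ v (κ v)).2 (hκr v)).symm
  -- the class of a representative
  have hcls : ∀ x y, {w | Linked G S x w} = {w | Linked G S y w} → κ x = κ y := by
    intro x y h
    have h1 : y ∈ {w | Linked G S x w} := by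
      rw [h]; exact Relation.ReflTransGen.refl
    exact (hκ x y).2 h1
  refine ⟨hone, ?_, ?_, ?_⟩
  · rintro ⟨T, U, hTU, hT, hU⟩
    obtain ⟨A, hA, hA'⟩ := even_of_connected G (S ∪ T) hT
    obtain ⟨B, hB, hB'⟩ := even_of_connected G (S ∪ U) hU
    refine hone ⟨A, B, hA, hB, fun e he => ?_⟩
    by_cases h : e ∈ T
    · right
      apply hB'
      rw [mem_union]
      rintro (h1 | h1)
      · exact he h1
      · exact (Finset.disjoint_left.1 hTU) h h1
    · left
      apply hA'
      rw [mem_union]
      rintro (h1 | h1)
      · exact he h1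
      · exact h h1
  · intro h9
    have himg : (univ.image κ).card ≤ 9 := by
      refine le_trans ?_ h9
      have h1 : ((univ.image κ : Finset V) : Set V).ncard ≤ (parts G S).ncard := by
        apply Set.ncard_le_ncard_of_injOn (fun x => {w | Linked G S x w})
        · intro x _
          exact ⟨x, rfl⟩
        · intro x hx y hy hxy
          rw [mem_coe, mem_image] at hx hy
          obtain ⟨u, _, rfl⟩ := hx
          obtain ⟨v, _, rfl⟩ := hy
          have := hcls _ _ hxy
          rwa [hfix, hfix] at this
      rwa [Set.ncard_coe_finset] at h1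
    apply covered_of_four G hG S hS
    apply Pool.Agent.V11198.Six.four_of_reg G S hS hev hconn al be hab hends κ hκr hκ
    · refine le_trans (card_le_card ?_) (le_trans himg (by norm_num))
      intro x hx
      rw [mem_filter] at hx
      rw [mem_image]
      exact ⟨x, mem_univ _, hx.2.1⟩
    · intro c
      exact Pool.Agent.V11198.Six.no_pq_few al be S κ himg c
  · intro hne hcut h16
    apply covered_of_four G hG S hS
    apply Pool.Agent.V11198.Six.four_of_reg G S hS hev hconn al be hab hends κ hκr hκ
    · refine le_trans ?_ h16
      rw [← Set.ncard_coe_finset]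
      apply Set.ncard_le_ncard_of_injOn (fun x => {w | Linked G S x w})
      · intro x hx
        rw [mem_coe, mem_filter] at hx
        refine ⟨⟨x, rfl⟩, ?_⟩
        have h1 : ({w | Linked G S x w} : Set V) =
            ((univ.filter (fun v => κ v = x) : Finset V) : Set V) := by
          ext w
          rw [mem_coe, mem_filter]
          constructor
          · intro h
            have h2 := (hκ x w).2 h
            rw [hx.2.1] at h2
            exact ⟨mem_univ _, h2.symm⟩
          · rintro ⟨_, h⟩
            refine (hκ x w).1 ?_
            rw [hx.2.1, h]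
        show Odd ({w | Linked G S x w} : Set V).ncard
        rw [h1, Set.ncard_coe_finset]
        have h2 := hx.2.2
        rw [sum_congr rfl fun v _ => hG v, sum_const, smul_eq_mul, Nat.odd_mul] at h2
        exact h2.1
      · intro x hx y hy hxy
        rw [mem_coe, mem_filter] at hx hy
        have := hcls _ _ hxy
        rwa [hx.2.1, hy.2.1] at this
    · intro c
      exact Pool.Agent.V11198.Six.no_pq_cut G al be hab hends S hne κ
        (fun e he => (hκ _ _).2 (Relation.ReflTransGen.single ⟨e, he, hends e⟩)) hcut c

end Pool.Agent.Results.MP_0c3aa4_co.FewOddParts
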